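import Pool.Agent.Lib.MP_52f1b6_co.DF.Key

/-! With at most `r + m` schemes, all but boundedly many schemes have twins. -/

set_option autoImplicit false

namespace Pool.Agent.Lib.MP_52f1b6_co

open Finset

/-- The colour scheme of a set. -/
def sch {n r : ℕ} (k : ℕ) (c : Finset (Fin n) → Fin r) (L : Finset (Fin n)) : Fin r → ℕ :=
  fun i => ((L.powersetCard k).filter (fun K => c K = i)).card

theorem local_zero {n r k l : ℕ} (hkl : k < l) (c : Finset (Fin n) → Fin r) (lam : Fin r → ℚ)
    (L W : Finset (Fin n)) (hL : L.card = l) (hdis : Disjoint L W) (hW : W.card = k + 1)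
    (h : ∀ L' ⊆ L ∪ W, L'.card = l → L' ≠ L → ∑ i, lam i * (sch k c L' i : ℚ) = 0) :
    ∑ i, lam i * (sch k c L i : ℚ) = 0 := by
  simp only [sch, sum_count] at h ⊢
  refine sum_eq_zero fun K hK => ?_
  obtain ⟨hKL, hKc⟩ := mem_powersetCard.mp hK
  obtain ⟨x, hxL, hxK⟩ := exists_mem_notMem_of_card_lt_card (show K.card < L.card by omega)
  refine gottlieb k l ((L ∪ W).erase x) (fun K => lam (c K)) hkl.le ?_ ?_ K ?_ hKc
  · rw [card_erase_of_mem (mem_union_left _ hxL), card_union_of_disjoint hdis]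
    omega
  · intro L' hL' hL'c
    refine h L' (hL'.trans (erase_subset _ _)) hL'c fun h2 => ?_
    have := hL' (h2 ▸ hxL)
    simp at this
  · intro z hz
    exact mem_erase.mpr ⟨fun h => hxK (h ▸ hz), mem_union_left _ (hKL hz)⟩

theorem bad {n r k l m : ℕ} (hkl : k < l) (hn : k + l ≤ n) (c : Finset (Fin n) → Fin r)
    (hsurj : ∀ i : Fin r, ∃ K : Finset (Fin n), K.card = k ∧ c K = i)
    (hcard : (((univ : Finset (Finset (Fin n))).filter (fun L => L.card = l)).image
      (sch k c)).card ≤ r + m) :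
    ∃ B : Finset (Fin r → ℕ), B.card ≤ (m + 1) * (l + (k + 1)).choose l ∧
      ∀ L W : Finset (Fin n), L.card = l → Disjoint L W → W.card = k + 1 → sch k c L ∉ B →
        ∃ L' ⊆ L ∪ W, L'.card = l ∧ L' ≠ L ∧ sch k c L' = sch k c L := by
  classical
  set T := ((univ : Finset (Finset (Fin n))).filter (fun L => L.card = l)).image (sch k c)
    with hT
  have hmem : ∀ L : Finset (Fin n), L.card = l → sch k c L ∈ T :=
    fun L h => mem_image.mpr ⟨L, mem_filter.mpr ⟨mem_univ _, h⟩, rfl⟩
  have main : ∀ j : ℕ, (∃ B : Finset (Fin r → ℕ), B.card ≤ j * (l + (k + 1)).choose l ∧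
      ∀ L W : Finset (Fin n), L.card = l → Disjoint L W → W.card = k + 1 → sch k c L ∉ B →
        ∃ L' ⊆ L ∪ W, L'.card = l ∧ L' ≠ L ∧ sch k c L' = sch k c L) ∨
      ∃ J B : Finset (Fin r → ℕ), J.card = j ∧ J ⊆ B ∧ B ⊆ T ∧
        B.card ≤ j * (l + (k + 1)).choose l ∧ ∀ lam : Fin r → ℚ,
          (∀ τ ∈ B, τ ∉ J → ∑ i, lam i * (τ i : ℚ) = 0) → ∀ τ ∈ J, ∑ i, lam i * (τ i : ℚ) = 0 := by
    intro j
    induction j with
    | zero => exact Or.inr ⟨∅, ∅, rfl, Subset.refl _, empty_subset _, by simp, by simp⟩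
    | succ j ih =>
      rcases ih with ⟨B, h1, h2⟩ | ⟨J, B, h1, h2, h3, h4, h5⟩
      · exact Or.inl ⟨B, h1.trans (Nat.mul_le_mul_right _ (Nat.le_succ j)), h2⟩
      by_cases hB : ∀ L W : Finset (Fin n), L.card = l → Disjoint L W → W.card = k + 1 →
        sch k c L ∉ B → ∃ L' ⊆ L ∪ W, L'.card = l ∧ L' ≠ L ∧ sch k c L' = sch k c L
      · exact Or.inl ⟨B, h4.trans (Nat.mul_le_mul_right _ (Nat.le_succ j)), hB⟩
      push Not at hB
      obtain ⟨L, W, hL, hdis, hW, hLB, hno⟩ := hB
      have hS : ∀ L' ⊆ L ∪ W, L'.card = l →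
          sch k c L' ∈ B ∪ (powersetCard l (L ∪ W)).image (sch k c) := fun L' a1 a2 =>
        mem_union_right _ (mem_image.mpr ⟨L', mem_powersetCard.mpr ⟨a1, a2⟩, rfl⟩)
      refine Or.inr ⟨insert (sch k c L) J, B ∪ (powersetCard l (L ∪ W)).image (sch k c),
        by rw [card_insert_of_notMem fun h => hLB (h2 h), h1],
        insert_subset (hS L subset_union_left hL) (h2.trans subset_union_left),
        union_subset h3 fun τ hτ => ?_, ?_, fun lam hlam => ?_⟩
      · obtain ⟨L', a1, rfl⟩ := mem_image.mp hτ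
        exact hmem L' (mem_powersetCard.mp a1).2
      · refine (card_union_le _ _).trans ?_
        have a1 := card_image_le (s := powersetCard l (L ∪ W)) (f := sch k c)
        rw [card_powersetCard, card_union_of_disjoint hdis, hL, hW] at a1
        rw [Nat.succ_mul]
        omega
      · have hJ := h5 lam fun τ a1 a2 => hlam τ (mem_union_left _ a1) fun a3 =>
          (mem_insert.mp a3).elim (fun e => hLB (e ▸ a1)) a2
        intro τ hτ
        rcases mem_insert.mp hτ with rfl | hτ
        · refine local_zero hkl c lam L W hL hdis hW fun L' a1 a2 a3 => ?_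
          by_cases a4 : sch k c L' ∈ J
          · exact hJ _ a4
          · exact hlam _ (hS L' a1 a2) fun a5 => (mem_insert.mp a5).elim (hno L' a1 a2 a3) a4
        · exact hJ τ hτ
  refine (main (m + 1)).resolve_right ?_
  rintro ⟨J, B, h1, h2, h3, -, h5⟩
  let Φ : (Fin r → ℚ) →ₗ[ℚ] (↥(T \ J) → ℚ) :=
    { toFun := fun lam τ => ∑ i : Fin r, lam i * (τ.1 i : ℚ)
      map_add' := by
        intro a b
        funext τ
        simp [add_mul, sum_add_distrib]
      map_smul' := by
        intro a b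
        funext τ
        simp [mul_sum, mul_assoc] }
  have hinj : Function.Injective Φ := by
    rw [injective_iff_map_eq_zero]
    intro lam hlam
    have h0 : ∀ τ ∈ T, τ ∉ J → ∑ i, lam i * (τ i : ℚ) = 0 := fun τ a1 a2 =>
      congrFun hlam ⟨τ, mem_sdiff.mpr ⟨a1, a2⟩⟩
    funext i
    obtain ⟨K, hK, rfl⟩ := hsurj i
    refine gottlieb k l univ (fun K => lam (c K)) hkl.le (by simpa using hn) (fun L _ h => ?_) K
      (subset_univ _) hK
    rw [← sum_count]
    by_cases a : sch k c L ∈ J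
    · exact h5 lam (fun τ a1 => h0 τ (h3 a1)) _ a
    · exact h0 _ (hmem L h) a
  have hle := LinearMap.finrank_le_finrank_of_injective hinj
  rw [Module.finrank_fintype_fun_eq_card, Module.finrank_fintype_fun_eq_card, Fintype.card_fin,
    Fintype.card_coe, card_sdiff_of_subset (h2.trans h3), h1] at hle
  have := card_le_card (h2.trans h3)
  omega

end Pool.Agent.Lib.MP_52f1b6_co
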