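import Pool.Agent.Lib.MP_52f1b6_co.DF.Bad

/-! The case `k < l` on a ground set `Fin n`, with at most `r + m` schemes. -/

set_option autoImplicit false

namespace Pool.Agent.Lib.MP_52f1b6_co

theorem fin_defect (k l m : ℕ) (hkl : k < l) :
    ∃ g : ℕ, ∀ n r : ℕ, g ≤ n → ∀ c : Finset (Fin n) → Fin r,
        (∀ i : Fin r, ∃ K : Finset (Fin n), K.card = k ∧ c K = i) →
        (((Finset.univ : Finset (Finset (Fin n))).filter (fun L => L.card = l)).image
            (sch k c)).card ≤ r + m →
        ∃ e : Fin r ≃ Fin r, ∃ σ : Fin r → Finset (Fin n),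
          (∀ j, (σ j).card = l) ∧ (∀ i j : Fin r, j < i → sch k c (σ j) (e i) = 0) ∧
          (∀ j : Fin r, sch k c (σ j) (e j) ≠ 0) := by
  classical
  obtain ⟨M, hM⟩ := keyB (l - k - 1 + 1) (k + 1) ((m + 1) * (l + (k + 1)).choose l)
    (Nat.succ_pos _) (Nat.succ_pos _) (k + 1)
  refine ⟨max M (k + l), ?_⟩
  intro n r hn c hsurj hcard
  have hn1 : M ≤ n := le_trans (le_max_left _ _) hn
  have hn2 : k + l ≤ n := le_trans (le_max_right _ _) hn
  have hl : k + (l - k - 1 + 1) = l := by omega
  obtain ⟨B, hB1, hB2⟩ := bad hkl hn2 c hsurj hcard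
  obtain ⟨ι⟩ : Nonempty (B ↪ Fin ((m + 1) * (l + (k + 1)).choose l)) :=
    Function.Embedding.nonempty_of_card_le (by simpa using hB1)
  have hpos : ∀ (L : Finset (Fin n)) (i : Fin r),
      sch k c L i ≠ 0 ↔ ∃ K ⊆ L, K.card = k ∧ c K = i := by
    intro L i
    rw [sch, Finset.card_ne_zero]
    constructor
    · rintro ⟨K, hK⟩
      obtain ⟨h1, h2⟩ := Finset.mem_filter.mp hK
      exact ⟨K, (Finset.mem_powersetCard.mp h1).1, (Finset.mem_powersetCard.mp h1).2, h2⟩
    · rintro ⟨K, h1, h2, h3⟩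
      exact ⟨K, Finset.mem_filter.mpr ⟨Finset.mem_powersetCard.mpr ⟨h1, h2⟩, h3⟩⟩
  have hkey : ∀ D : Fin r → Prop, (∃ i, D i) → ∃ L : Finset (Fin n), L.card = l ∧
      ∃ K ⊆ L, K.card = k ∧ D (c K) ∧ ∀ K' ⊆ L, K'.card = k → D (c K') → c K' = c K := by
    intro D ⟨i, hi⟩
    obtain ⟨K0, hK0, rfl⟩ := hsurj i
    have := hM k (Nat.lt_succ_self k) (Fin n) (Fin r) Finset.univ c D
      (fun L => if h : sch k c L ∈ B then some (ι ⟨_, h⟩) else none) (by simpa using hn1)
      (by
        rw [hl]
        intro L _ hL hρ ⟨K, hK1, hK2, hK3⟩ W _ hdis hW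
        obtain ⟨L', h1, h2, h3, h4⟩ := hB2 L W hL hdis hW fun h => by simp [h] at hρ
        refine ⟨L', h1, h2, h3, ?_, ?_⟩
        · obtain ⟨K', a1, a2, a3⟩ := (hpos L' (c K)).mp (by
            rw [h4]; exact (hpos L (c K)).mpr ⟨K, hK1, hK2, rfl⟩)
          exact ⟨K', a1, a2, by rw [a3]; exact hK3⟩
        · intro K' a1 a2 _
          exact (hpos L (c K')).mp (by
            rw [← h4]; exact (hpos L' (c K')).mpr ⟨K', a1, a2, rfl⟩))
      (by
        intro L _ L' _ _ _ hρ hρ' K' a1 a2 _
        have h1 : sch k c L ∈ B := by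
          by_contra h
          simp [h] at hρ
        have h2 : sch k c L' ∈ B := by
          by_contra h
          simp [h, h1] at hρ'
        have h4 : sch k c L' = sch k c L := by simpa [h1, h2] using hρ'
        exact (hpos L (c K')).mp (by
          rw [← h4]; exact (hpos L' (c K')).mpr ⟨K', a1, a2, rfl⟩))
      ⟨K0, Finset.subset_univ _, hK0, hi⟩
    rw [hl] at this
    obtain ⟨L, _, h⟩ := this
    exact ⟨L, h⟩
  have greedy : ∀ j, j ≤ r → ∃ (e : ℕ → Fin r) (σ : ℕ → Finset (Fin n)),
      (∀ a b, a < b → b < j → e a ≠ e b) ∧ ∀ a, a < j → (σ a).card = l ∧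
        (∃ K ⊆ σ a, K.card = k ∧ c K = e a) ∧
        ∀ K ⊆ σ a, K.card = k → ∃ b, b ≤ a ∧ c K = e b := by
    intro j
    induction j with
    | zero =>
      intro _
      exact ⟨fun _ => c ∅, fun _ => ∅, fun a b _ h => absurd h (Nat.not_lt_zero _),
        fun a h => absurd h (Nat.not_lt_zero _)⟩
    | succ j ih =>
      intro hj
      obtain ⟨e, σ, h1, h2⟩ := ih (by omega)
      obtain ⟨L, hL, K, hK1, hK2, hK3, hK4⟩ := hkey (fun i => ∀ b, b < j → e b ≠ i) (by
        obtain ⟨i, _, hi⟩ := Finset.exists_mem_notMem_of_card_lt_card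
          (s := (Finset.range j).image e) (t := Finset.univ) (by
            have := Finset.card_image_le (s := Finset.range j) (f := e)
            simp only [Finset.card_range, Finset.card_univ, Fintype.card_fin] at this ⊢
            omega)
        exact ⟨i, fun b hb h => hi (Finset.mem_image.mpr ⟨b, Finset.mem_range.mpr hb, h⟩)⟩)
      refine ⟨Function.update e j (c K), Function.update σ j L, ?_, ?_⟩
      · intro a b hab hb
        rw [Function.update_of_ne (show a ≠ j by omega)]
        by_cases hbj : b = j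
        · subst hbj
          rw [Function.update_self]
          exact hK3 a hab
        · rw [Function.update_of_ne hbj]
          exact h1 a b hab (by omega)
      · intro a ha
        by_cases haj : a = j
        · subst haj
          simp only [Function.update_self]
          refine ⟨hL, ⟨K, hK1, hK2, rfl⟩, ?_⟩
          intro K' a1 a2
          by_cases hD : ∀ b, b < a → e b ≠ c K'
          · exact ⟨a, le_rfl, by rw [Function.update_self]; exact hK4 K' a1 a2 hD⟩
          · push Not at hD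
            obtain ⟨b, hb, hb2⟩ := hD
            exact ⟨b, hb.le, by rw [Function.update_of_ne hb.ne, hb2]⟩
        · simp only [Function.update_of_ne haj]
          obtain ⟨a1, a2, a3⟩ := h2 a (by omega)
          refine ⟨a1, a2, fun K' b1 b2 => ?_⟩
          obtain ⟨b, hb, hb2⟩ := a3 K' b1 b2
          exact ⟨b, hb, by rw [Function.update_of_ne (show b ≠ j by omega), hb2]⟩
  obtain ⟨e, σ, h1, h2⟩ := greedy r le_rfl
  have hinj : Function.Injective (fun i : Fin r => e i) := by
    intro a b hab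
    rcases lt_trichotomy a b with h | h | h
    · exact absurd hab (h1 a b h b.2)
    · exact h
    · exact absurd hab.symm (h1 b a h a.2)
  have hz : ∀ i j : Fin r, j < i → sch k c (σ j) (e i) = 0 := by
    intro i j hij
    by_contra hne
    obtain ⟨K, a1, a2, a3⟩ := (hpos _ _).mp hne
    obtain ⟨b, hb, hb2⟩ := (h2 j j.2).2.2 K a1 a2
    exact h1 b i (lt_of_le_of_lt hb hij) i.2 (by rw [← hb2, a3])
  have hnz : ∀ j : Fin r, sch k c (σ j) (e j) ≠ 0 :=
    fun j => (hpos _ _).mpr (h2 j j.2).2.1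
  exact ⟨Equiv.ofBijective _ (Finite.injective_iff_bijective.mp hinj), fun j => σ j,
    fun j => (h2 j j.2).1, hz, hnz⟩

end Pool.Agent.Lib.MP_52f1b6_co
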