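import Pool.Agent.Lib.MP_52f1b6_co.Rank

/-! The link induction with a bounded number of exceptional labels. -/

set_option autoImplicit false

namespace Pool.Agent.Lib.MP_52f1b6_co

open Finset

/-- the main combinatorial statement for one value of `k` -/
def KeyB (d w b k N : ℕ) : Prop :=
  ∀ (α κ : Type) [LinearOrder α] (X : Finset α) (c : Finset α → κ) (D : κ → Prop)
    (ρ : Finset α → Option (Fin b)), N ≤ X.card →
    (∀ L ⊆ X, L.card = k + d → ρ L = none → (∃ K ⊆ L, K.card = k ∧ D (c K)) →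
      ∀ W ⊆ X, Disjoint L W → W.card = w →
        ∃ L' ⊆ L ∪ W, L'.card = k + d ∧ L' ≠ L ∧ (∃ K ⊆ L', K.card = k ∧ D (c K)) ∧
          ∀ K ⊆ L', K.card = k → D (c K) → ∃ K' ⊆ L, K'.card = k ∧ c K' = c K) →
    (∀ L ⊆ X, ∀ L' ⊆ X, L.card = k + d → L'.card = k + d → ρ L ≠ none → ρ L' = ρ L →
      ∀ K ⊆ L', K.card = k → D (c K) → ∃ K' ⊆ L, K'.card = k ∧ c K' = c K) →
    (∃ K ⊆ X, K.card = k ∧ D (c K)) →
    ∃ L ⊆ X, L.card = k + d ∧ ∃ K ⊆ L, K.card = k ∧ D (c K) ∧
      ∀ K' ⊆ L, K'.card = k → D (c K') → c K' = c K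

theorem keyB_step (d w b k M : ℕ) (hd : 0 < d) (hw : 0 < w)
    (ih : ∀ k' < k, KeyB d w b k' M) :
    ∃ N, KeyB d w b k N := by
  classical
  obtain ⟨N0, hN0⟩ := mono k (k + d) w (by omega)
  obtain ⟨N1, hN1⟩ := ramsey (Option (Fin b)) (k + d) N0
  obtain ⟨N, hN⟩ := ramsey Prop k (max (max N1 M) k)
  refine ⟨N, fun α κ _ X c D ρ hX hP hQ hK => ?_⟩
  obtain ⟨Y, hYX, hYc, hY⟩ := hN α X (fun K => D (c K)) hX
  have hYc1 : N1 ≤ Y.card := le_trans (le_trans (le_max_left _ _) (le_max_left _ _)) hYc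
  have hYc2 : M ≤ Y.card := le_trans (le_trans (le_max_right _ _) (le_max_left _ _)) hYc
  by_cases hall : ∃ K ⊆ Y, K.card = k ∧ D (c K)
  · obtain ⟨K0, hK0, hK0c, hK0D⟩ := hall
    have hD : ∀ K ⊆ Y, K.card = k → D (c K) := fun K h hc => by
      have := hY K0 hK0 K h hK0c hc
      exact this ▸ hK0D
    obtain ⟨Y', hY'Y, hY'c, hY'⟩ := hN1 α Y ρ hYc1
    obtain ⟨L, hLY', hLc, hL⟩ := hN0 α κ Y' c hY'c (by
      intro L hL' hLc W hW' hdis hWc
      have hL := hL'.trans hY'Y
      have hW := hW'.trans hY'Y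
      by_cases hρ : ρ L = none
      · obtain ⟨K, hKL, hKc⟩ := exists_subset_card_eq (show k ≤ L.card by omega)
        obtain ⟨L', h1, h2, h3, _, h5⟩ := hP L (hL.trans hYX) hLc hρ
          ⟨K, hKL, hKc, hD K (hKL.trans hL) hKc⟩ W (hW.trans hYX) hdis hWc
        refine ⟨L', h1, h2, h3, fun K' hK' hK'c => h5 K' hK' hK'c (hD K' ?_ hK'c)⟩
        exact hK'.trans (h1.trans (union_subset hL hW))
      · obtain ⟨x, hx⟩ : W.Nonempty := card_pos.mp (by omega)
        obtain ⟨y, hy⟩ : L.Nonempty := card_pos.mp (by omega)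
        have hxL : x ∉ L := fun h => disjoint_left.mp hdis h hx
        have h1 : insert x (L.erase y) ⊆ L ∪ W :=
          insert_subset (mem_union_right _ hx) ((erase_subset _ _).trans subset_union_left)
        have h2 : (insert x (L.erase y)).card = k + d := by
          rw [card_insert_of_notMem fun h => hxL (mem_of_mem_erase h), card_erase_of_mem hy]
          omega
        have h3 := h1.trans (union_subset hL' hW')
        exact ⟨_, h1, h2, fun h => hxL (h ▸ mem_insert_self _ _), fun K hK hKc =>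
          hQ L (hL.trans hYX) _ (h3.trans (hY'Y.trans hYX)) hLc h2 hρ (hY' _ h3 L hL' h2 hLc) K hK
            hKc (hD K (hK.trans (h3.trans hY'Y)) hKc)⟩)
    have hLY := hLY'.trans hY'Y
    obtain ⟨K, hKL, hKc⟩ := exists_subset_card_eq (show k ≤ L.card by omega)
    exact ⟨L, hLY.trans hYX, hLc, K, hKL, hKc, hD K (hKL.trans hLY) hKc,
      fun K' hK' hK'c _ => hL K' hK' K hKL hK'c hKc⟩
  · have hex : ∃ m, ∃ K ⊆ X, K.card = k ∧ D (c K) ∧ (K \ Y).card = m := by
      obtain ⟨K, h1, h2, h3⟩ := hK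
      exact ⟨_, K, h1, h2, h3, rfl⟩
    obtain ⟨K0, hK0X, hK0c, hK0D, hK0m⟩ := Nat.find_spec hex
    have hmin : ∀ K ⊆ X, K.card = k → D (c K) → Nat.find hex ≤ (K \ Y).card :=
      fun K h1 h2 h3 => Nat.find_min' hex ⟨K, h1, h2, h3, rfl⟩
    set m := Nat.find hex with hm
    set Z := K0 \ Y with hZ
    have hZX : Z ⊆ X := sdiff_subset.trans hK0X
    have hZY : Disjoint Z Y := sdiff_disjoint
    have hm0 : 0 < m := by
      rcases Nat.eq_zero_or_pos m with h | h
      · exfalso
        apply hall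
        rw [h, card_eq_zero, hZ, sdiff_eq_empty_iff_subset] at hK0m
        exact ⟨K0, hK0m, hK0c, hK0D⟩
      · exact h
    have hmk : m ≤ k := by rw [← hK0m, ← hK0c]; exact card_le_card sdiff_subset
    have hZsub : ∀ K ⊆ Z ∪ Y, K.card = k → D (c K) → Z ⊆ K := by
      intro K h1 h2 h3
      have h4 := hmin K (h1.trans (union_subset hZX hYX)) h2 h3
      have h5 : K \ Y ⊆ Z := by
        intro y hy
        rcases mem_union.mp (h1 (mem_sdiff.mp hy).1) with h | h
        · exact h
        · exact absurd h (mem_sdiff.mp hy).2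
      have h6 : K \ Y = Z := eq_of_subset_of_card_le h5 (by omega)
      rw [← h6]
      exact sdiff_subset
    have hcardU : ∀ A ⊆ Y, (Z ∪ A).card = m + A.card := by
      intro A hA
      rw [card_union_of_disjoint (hZY.mono_right hA), hK0m]
    have hcardS : ∀ A : Finset α, Z ⊆ A → (A \ Z).card = A.card - m := by
      intro A hA
      rw [card_sdiff_of_subset hA, hK0m]
    have hsub : ∀ A B : Finset α, A ⊆ Z ∪ B → A \ Z ⊆ B := by
      intro A B h y hy
      rcases mem_union.mp (h (mem_sdiff.mp hy).1) with h' | h'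
      · exact absurd h' (mem_sdiff.mp hy).2
      · exact h'
    obtain ⟨L1, hL1Y, hL1c, K1, hK1, hK1c, hK1D, hK1u⟩ := ih (k - m) (by omega) α κ Y
      (fun A => c (Z ∪ A)) D (fun A => ρ (Z ∪ A)) hYc2 (by
        intro L1 hL1 hL1c hρ ⟨K1, hK1, hK1c, hK1D⟩ W hW hdis hWc
        obtain ⟨L', h1, h2, h3, ⟨K', h41, h42, h43⟩, h5⟩ := hP (Z ∪ L1)
          (union_subset hZX (hL1.trans hYX)) (by rw [hcardU L1 hL1]; omega) hρ
          ⟨Z ∪ K1, union_subset_union_right hK1, by rw [hcardU K1 (hK1.trans hL1)]; omega, hK1D⟩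
          W (hW.trans hYX) (disjoint_union_left.mpr ⟨hZY.mono_right hW, hdis⟩) hWc
        rw [union_assoc] at h1
        have hL'Y : L' ⊆ Z ∪ Y := h1.trans (union_subset_union_right (union_subset hL1 hW))
        have hZK' : Z ⊆ K' := hZsub K' (h41.trans hL'Y) h42 h43
        have hZL' : Z ⊆ L' := hZK'.trans h41
        refine ⟨L' \ Z, hsub _ _ h1, by rw [hcardS L' hZL']; omega, ?_,
          ⟨K' \ Z, sdiff_subset_sdiff h41 (Subset.refl _), by rw [hcardS K' hZK']; omega, ?_⟩, ?_⟩
        · intro h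
          apply h3
          rw [← h, union_sdiff_of_subset hZL']
        · simp only [union_sdiff_of_subset hZK']
          exact h43
        · intro K hK hKc hKD
          have hKY : K ⊆ Y := hK.trans (hsub _ _ hL'Y)
          obtain ⟨K'', a1, a2, a3⟩ := h5 (Z ∪ K) (union_subset hZL' (hK.trans sdiff_subset))
            (by rw [hcardU K hKY]; omega) hKD
          have hZK'' : Z ⊆ K'' := hZsub K'' (a1.trans (union_subset_union_right hL1)) a2
            (by rw [a3]; exact hKD)
          refine ⟨K'' \ Z, hsub _ _ a1, by rw [hcardS K'' hZK'']; omega, ?_⟩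
          simp only [union_sdiff_of_subset hZK'']
          exact a3) (by
        intro L1 hL1 L2 hL2 hL1c hL2c hρ hρ' K hK hKc hKD
        obtain ⟨K'', a1, a2, a3⟩ := hQ (Z ∪ L1) (union_subset hZX (hL1.trans hYX)) (Z ∪ L2)
          (union_subset hZX (hL2.trans hYX)) (by rw [hcardU L1 hL1]; omega)
          (by rw [hcardU L2 hL2]; omega) hρ hρ' (Z ∪ K) (union_subset_union_right hK)
          (by rw [hcardU K (hK.trans hL2)]; omega) hKD
        have hZK'' : Z ⊆ K'' := hZsub K'' (a1.trans (union_subset_union_right hL1)) a2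
          (by rw [a3]; exact hKD)
        refine ⟨K'' \ Z, hsub _ _ a1, by rw [hcardS K'' hZK'']; omega, ?_⟩
        simp only [union_sdiff_of_subset hZK'']
        exact a3)
      ⟨K0 \ Z, hsub _ _ (by
          intro y hy
          by_cases h : y ∈ Y
          · exact mem_union_right _ h
          · exact mem_union_left _ (mem_sdiff.mpr ⟨hy, h⟩)),
        by rw [hcardS K0 sdiff_subset]; omega, by
          simp only [union_sdiff_of_subset (show Z ⊆ K0 from sdiff_subset)]
          exact hK0D⟩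
    refine ⟨Z ∪ L1, union_subset hZX (hL1Y.trans hYX), by rw [hcardU L1 hL1Y]; omega,
      Z ∪ K1, union_subset_union_right hK1, by rw [hcardU K1 (hK1.trans hL1Y)]; omega, hK1D, ?_⟩
    intro K' hK' hK'c hK'D
    have hZK' : Z ⊆ K' := hZsub K' (hK'.trans (union_subset_union_right hL1Y)) hK'c hK'D
    have := hK1u (K' \ Z) (hsub _ _ hK') (by rw [hcardS K' hZK']; omega)
      (by simp only [union_sdiff_of_subset hZK']; exact hK'D)
    simpa only [union_sdiff_of_subset hZK'] using this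

theorem KeyB.mono {d w b k N N' : ℕ} (h : KeyB d w b k N) (hN : N ≤ N') : KeyB d w b k N' :=
  fun α κ _ X c D ρ hX => h α κ X c D ρ (le_trans hN hX)

theorem keyB (d w b : ℕ) (hd : 0 < d) (hw : 0 < w) :
    ∀ k, ∃ M, ∀ k' < k, KeyB d w b k' M := by
  intro k
  induction k with
  | zero => exact ⟨0, fun k' h => absurd h (Nat.not_lt_zero _)⟩
  | succ k ih =>
    obtain ⟨M, hM⟩ := ih
    obtain ⟨N, hN⟩ := keyB_step d w b k M hd hw hM
    refine ⟨max M N, fun k' hk' => ?_⟩
    rcases eq_or_lt_of_le (Nat.lt_succ_iff.mp hk') with h | h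
    · rw [h]; exact hN.mono (le_max_right _ _)
    · exact (hM k' h).mono (le_max_left _ _)

end Pool.Agent.Lib.MP_52f1b6_co
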